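import Pool.Agent.R150.WieB

/-!
# MP_4bd310_co: the Wiener index minus the total eccentricity

We prove the conjecture: for a connected graph `G` of order `n` with radius at least `4`,
`W(G) - ε(G) ≤ ⌊n³/6 - 3n²/4 + n/3 + 1/4⌋`, with equality iff `G` is a path.

The proof: deleting a non-bridge edge of a connected graph of radius at least `4` strictly
increases `W - ε` (`Pool.Agent.R150.Wie.partA`), which reduces the question to trees; and in a tree
which is not a path, a leaf outside a diametral path that is farthest from one of its ends can be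
deleted (`Pool.Agent.R150.Wie.treeBound`).
-/

set_option autoImplicit false

open Finset

namespace Pool.Agent.Results.MP_4bd310_co.PathMaximal

open Pool.Agent.R150.Wie

variable {V : Type*}

section defs
variable [Fintype V]

/-- The eccentricity `max_v d(u, v)` of the vertex `u`. -/
noncomputable def ecc (G : SimpleGraph V) (u : V) : ℕ := univ.sup fun v => G.dist u v

/-- The radius `min_u e(u)`. -/
noncomputable def radius (G : SimpleGraph V) : ℕ := ⨅ u, ecc G u

/-- The Wiener index `1/2 ∑_{u,v} d(u, v)`. -/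
noncomputable def wiener (G : SimpleGraph V) : ℚ := 1 / 2 * ∑ u, ∑ v, (G.dist u v : ℚ)

/-- The total eccentricity `∑_u e(u)`. -/
noncomputable def totalEcc (G : SimpleGraph V) : ℕ := ∑ u, ecc G u

end defs

/-! ### The distance of a connected graph -/

lemma distGM {G : SimpleGraph V} (hG : G.Connected) : GM G.dist where
  symm x y := G.dist_comm
  self x := G.dist_self
  tri x y z := hG.dist_triangle
  nbr x y hne := by
    obtain ⟨p, hp⟩ := hG.exists_walk_length_eq_dist x y
    cases p with
    | nil => exact absurd rfl hne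
    | @cons _ z _ h q =>
      refine ⟨z, SimpleGraph.dist_eq_one_iff_adj.2 h, ?_⟩
      rw [SimpleGraph.Walk.length_cons] at hp
      have h1 := SimpleGraph.dist_le q
      have h2 : G.dist x y ≤ G.dist x z + G.dist z y := hG.dist_triangle
      have h3 : G.dist x z = 1 := SimpleGraph.dist_eq_one_iff_adj.2 h
      omega

lemma distRel {G : SimpleGraph V} (hG : G.Connected) {u v : V} (huv : G.Adj u v)
    (hG' : (G.deleteEdges {s(u, v)}).Connected) :
    Rel (G.deleteEdges {s(u, v)}).dist G.dist u v := by
  set G' := G.deleteEdges {s(u, v)} with hdef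
  have gm := distGM hG'
  have gm0 := distGM hG
  have hle : ∀ x y, G.dist x y ≤ G'.dist x y := fun x y =>
    SimpleGraph.Reachable.dist_anti (SimpleGraph.deleteEdges_le _) (hG' x y)
  have huv1 : G.dist u v = 1 := SimpleGraph.dist_eq_one_iff_adj.2 huv
  have hvu1 : G.dist v u = 1 := SimpleGraph.dist_eq_one_iff_adj.2 huv.symm
  have key : ∀ x y, ∀ p : G.Walk x y,
      min (G'.dist x y) (min (G'.dist x u + 1 + G'.dist v y) (G'.dist x v + 1 + G'.dist u y)) ≤
        p.length := by
    intro x y p
    induction p with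
    | nil =>
      rw [gm.self]
      simp
    | @cons x z y h q ih =>
      rw [SimpleGraph.Walk.length_cons]
      by_cases hxz : s(x, z) = s(u, v)
      · have hs1 := gm.self u
        have hs2 := gm.self v
        rw [Sym2.eq_iff] at hxz
        rcases hxz with ⟨rfl, rfl⟩ | ⟨rfl, rfl⟩ <;> omega
      · have hadj : G'.Adj x z := by
          rw [hdef, SimpleGraph.deleteEdges_adj]
          exact ⟨h, by simpa using hxz⟩
        have h1 : G'.dist x z = 1 := SimpleGraph.dist_eq_one_iff_adj.2 hadj
        have h2 := gm.tri x z y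
        have h3 := gm.tri x z u
        have h4 := gm.tri x z v
        omega
  intro x y
  obtain ⟨p, hp⟩ := hG.exists_walk_length_eq_dist x y
  have h1 := key x y p
  have h2 := hle x y
  have h3 := gm0.tri x u y
  have h4 := gm0.tri u v y
  have h5 := gm0.tri x v y
  have h6 := gm0.tri v u y
  have h7 := hle x u
  have h8 := hle v y
  have h9 := hle x v
  have h10 := hle u y
  omega

lemma two_le_dist {G : SimpleGraph V} {u v : V} (huv : G.Adj u v)
    (hG' : (G.deleteEdges {s(u, v)}).Connected) : 2 ≤ (G.deleteEdges {s(u, v)}).dist u v := by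
  refine hG'.one_lt_dist_of_ne_of_not_adj huv.ne ?_
  simp [SimpleGraph.deleteEdges_adj]

lemma treeTM {G : SimpleGraph V} (hG : G.IsTree) : TM G.dist where
  toGM := distGM hG.connected
  t2 := by
    classical
    intro x c y w hxy
    have gm := distGM hG.connected
    by_contra hcon
    push Not at hcon
    obtain ⟨hc1, hc2⟩ := hcon
    obtain ⟨p, hp⟩ := hG.connected.exists_walk_length_eq_dist w x
    obtain ⟨q, hq⟩ := hG.connected.exists_walk_length_eq_dist w y
    have aux : ∀ {a b : V} (r : G.Walk a b), r.length = G.dist a b → c ∈ r.support →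
        G.dist a c + G.dist c b = G.dist a b := by
      intro a b r hr hc
      have h1 := r.take_spec hc
      have h2 : (r.takeUntil c hc).length + (r.dropUntil c hc).length = r.length := by
        conv_rhs => rw [← h1]
        rw [SimpleGraph.Walk.length_append]
      have h3 := SimpleGraph.dist_le (r.takeUntil c hc)
      have h4 := SimpleGraph.dist_le (r.dropUntil c hc)
      have h5 := gm.tri a c b
      omega
    have hcp : c ∉ p.support := fun h => hc1 (aux p hp h)
    have hcq : c ∉ q.support := fun h => hc2 (aux q hq h)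
    obtain ⟨r1, hr1⟩ := hG.connected.exists_walk_length_eq_dist x c
    obtain ⟨r2, hr2⟩ := hG.connected.exists_walk_length_eq_dist c y
    have hrl : (r1.append r2).length = G.dist x y := by
      rw [SimpleGraph.Walk.length_append]; omega
    have hrp : (r1.append r2).IsPath := SimpleGraph.Walk.isPath_of_length_eq_dist _ hrl
    have hsp : (p.reverse.append q).bypass.IsPath := SimpleGraph.Walk.bypass_isPath _
    have huniq := (hG.isAcyclic.subsingleton_path x y).elim ⟨_, hrp⟩ ⟨_, hsp⟩
    have heq : r1.append r2 = (p.reverse.append q).bypass := congrArg Subtype.val huniq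
    have hmem : c ∈ (r1.append r2).support := by
      rw [SimpleGraph.Walk.mem_support_append_iff]
      exact Or.inl r1.end_mem_support
    rw [heq] at hmem
    have hmem2 := SimpleGraph.Walk.support_bypass_subset_support _ hmem
    rw [SimpleGraph.Walk.mem_support_append_iff, SimpleGraph.Walk.support_reverse,
      List.mem_reverse] at hmem2
    rcases hmem2 with h | h
    · exact hcp h
    · exact hcq h
  t3 := by
    intro u v w huv
    exact hG.dist_ne_of_adj w (SimpleGraph.dist_eq_one_iff_adj.1 huv)

section fin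
variable [Fintype V]

lemma ecc_eq (G : SimpleGraph V) (u : V) : ecc G u = ec G.dist u := rfl

/-- A tree all of whose eccentricities are at least `4` has two vertices at distance at
least `7`. -/
lemma diam_ge {d : V → V → ℕ} (h : TM d) (hV : Nonempty V) (he : ∀ u, 4 ≤ ec d u) :
    ∃ x y, 7 ≤ d x y ∧ ∀ a b, d a b ≤ d x y := by
  classical
  obtain ⟨⟨x, y⟩, -, hxy⟩ := Finset.exists_max_image (univ : Finset (V × V))
    (fun p => d p.1 p.2) (univ_nonempty)
  have hmax : ∀ a b, d a b ≤ d x y := fun a b => hxy (a, b) (mem_univ _)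
  refine ⟨x, y, ?_, hmax⟩
  obtain ⟨c, hc1, hc2⟩ := h.toGM.geo x y ((d x y + 1) / 2) (by
    have h1 := le_ec d x y
    obtain ⟨s, hs⟩ := exists_star d x
    have h2 := he x
    have h3 := hmax x s
    omega)
  obtain ⟨s, hs⟩ := exists_star d c
  have h1 := he c
  have h2 := h.t2 x c y s (by
    have := h.tri x c y
    omega)
  have h3 := hmax s x
  have h4 := hmax s y
  have h5 := h.symm c s
  have h6 := h.symm c x
  omega

/-- The exact value of twice the upper bound. -/
lemma floor_eq (n : ℕ) :
    ((⌊(1 / 6 : ℚ) * (n : ℚ) ^ 3 - 3 / 4 * (n : ℚ) ^ 2 + 1 / 3 * n + 1 / 4⌋ : ℤ) : ℚ) =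
      (F2 n : ℚ) / 2 := by
  have h1 := pw_closed n
  have h2 := pe_closed n
  -- `F2 n` is even
  have hev : ∃ k : ℤ, F2 n = 2 * k := by
    unfold F2
    have : Even (pw n) := by
      clear h1 h2
      induction n with
      | zero => simp [pw]
      | succ n ih =>
        rw [pw_succ]
        exact ih.add (Nat.even_mul_succ_self n)
    obtain ⟨k, hk⟩ := this
    refine ⟨(k : ℤ) - pe n, ?_⟩
    rw [hk]
    push_cast
    ring
  obtain ⟨k, hk⟩ := hev
  have h3 : 12 * (k : ℚ) = 2 * (n : ℚ) ^ 3 - 9 * (n : ℚ) ^ 2 + 4 * n + 3 * ((n % 2 : ℕ) : ℚ) := by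
    have h4 : 12 * k = 2 * (n : ℤ) ^ 3 - 9 * (n : ℤ) ^ 2 + 4 * n + 3 * ((n % 2 : ℕ) : ℤ) := by
      unfold F2 at hk
      linarith
    generalize n % 2 = r at h4 ⊢
    have h5 := congrArg (Int.cast : ℤ → ℚ) h4
    push_cast at h5
    linarith
  have h5 : ⌊(1 / 6 : ℚ) * (n : ℚ) ^ 3 - 3 / 4 * (n : ℚ) ^ 2 + 1 / 3 * n + 1 / 4⌋ = k := by
    rw [Int.floor_eq_iff]
    have h6 : n % 2 = 0 ∨ n % 2 = 1 := by omega
    rcases h6 with h6 | h6 <;> rw [h6] at h3 <;> push_cast at h3 <;>
      constructor <;> linarith
  rw [h5, hk]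
  push_cast
  ring

lemma value_eq (G : SimpleGraph V) :
    wiener G - totalEcc G = (f2 G.dist univ : ℚ) / 2 := by
  unfold wiener totalEcc f2 W2 E1
  push_cast
  have : ∀ u, ecc G u = univ.sup (G.dist u) := fun _ => rfl
  simp only [this]
  ring

/-- The main inequality. -/
lemma main_ineq [DecidableEq V] (G : SimpleGraph V) (hG : G.Connected)
    (he : ∀ u, 4 ≤ ec G.dist u) :
    f2 G.dist univ ≤ F2 (Fintype.card V) ∧
    (f2 G.dist univ = F2 (Fintype.card V) →
      G.IsTree ∧ ∃ x y, (univ : Finset V) = Pt G.dist x y) := by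
  induction G using (wellFounded_lt (α := SimpleGraph V)).induction with
  | _ G ih =>
    by_cases hac : G.IsAcyclic
    · have hT : G.IsTree := ⟨hG, hac⟩
      have tm := treeTM hT
      obtain ⟨x, y, hD, hmax⟩ := diam_ge tm hG.nonempty he
      obtain ⟨h1, h2⟩ := treeBound tm hD univ (fun _ _ _ _ c _ => mem_univ c) (mem_univ x)
        (mem_univ y) (fun a _ b _ => hmax a b)
      rw [Finset.card_univ] at h1 h2
      exact ⟨h1, fun h => ⟨hT, x, y, h2 h⟩⟩
    · rw [SimpleGraph.isAcyclic_iff_forall_isBridge] at hac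
      push Not at hac
      obtain ⟨e, he1, he2⟩ := hac
      induction e with
      | _ u v =>
        have huv : G.Adj u v := he1
        have hG' := hG.connected_delete_edge_of_not_isBridge he2
        have hrel := distRel hG huv hG'
        have gm := distGM hG'
        have hk := two_le_dist huv hG'
        have hlt : G.deleteEdges {s(u, v)} < G := by
          refine lt_of_le_of_ne (SimpleGraph.deleteEdges_le _) ?_
          intro heq
          have : (G.deleteEdges {s(u, v)}).Adj u v := by rw [heq]; exact huv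
          simp [SimpleGraph.deleteEdges_adj] at this
        have he' : ∀ x, 4 ≤ ec (G.deleteEdges {s(u, v)}).dist x := fun x =>
          (he x).trans (ec_mono hrel x)
        obtain ⟨ih1, -⟩ := ih _ hlt hG' he'
        have hA := partA gm hrel hk he
        have hlt2 : f2 G.dist univ < f2 (G.deleteEdges {s(u, v)}).dist univ := by
          unfold f2 W2 E1
          unfold ec at hA
          zify at hA ⊢
          linarith
        have := hlt2.trans_le ih1
        exact ⟨this.le, fun h => absurd h this.ne⟩

/-- A path-like tree is isomorphic to the path graph. -/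
lemma iso_of_univ [DecidableEq V] {G : SimpleGraph V} (hT : G.IsTree) {x y : V}
    (h : (univ : Finset V) = Pt G.dist x y) :
    Nonempty (G ≃g SimpleGraph.pathGraph (Fintype.card V)) := by
  have tm := treeTM hT
  have hcard : Fintype.card V = G.dist x y + 1 := by
    rw [← Finset.card_univ, h, Pt_card tm]
  have hm : ∀ a, G.dist x a < Fintype.card V := by
    intro a
    rw [hcard]
    exact Pt_maps a (h ▸ mem_univ a)
  have hinj : Function.Injective (fun a => (⟨G.dist x a, hm a⟩ : Fin (Fintype.card V))) := by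
    intro a b hab
    simp only [Fin.mk.injEq] at hab
    exact Pt_inj tm a (h ▸ mem_univ a) b (h ▸ mem_univ b) hab
  have hbij : Function.Bijective (fun a => (⟨G.dist x a, hm a⟩ : Fin (Fintype.card V))) := by
    rw [Fintype.bijective_iff_injective_and_card]
    exact ⟨hinj, by simp⟩
  refine ⟨⟨Equiv.ofBijective _ hbij, ?_⟩⟩
  intro a b
  rw [SimpleGraph.pathGraph_adj, ← SimpleGraph.dist_eq_one_iff_adj (G := G)]
  simp only [Equiv.ofBijective_apply]
  have := Pt_dist tm (x := x) (y := y) (h ▸ mem_univ a) (h ▸ mem_univ b)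
  omega

omit [Fintype V] in
/-- The distance in a path graph. -/
lemma dist_of_iso {G : SimpleGraph V} (hG : G.Connected) {n : ℕ}
    (φ : G ≃g SimpleGraph.pathGraph n) (a b : V) :
    G.dist a b = ((φ a : ℕ) - (φ b : ℕ)) + ((φ b : ℕ) - (φ a : ℕ)) := by
  have hadj : ∀ a b, G.Adj a b ↔ (φ a : ℕ) + 1 = (φ b : ℕ) ∨ (φ b : ℕ) + 1 = (φ a : ℕ) := by
    intro a b
    rw [← SimpleGraph.pathGraph_adj, φ.map_rel_iff]
  apply le_antisymm
  · have key : ∀ k : ℕ, ∀ a b : V, (φ b : ℕ) = (φ a : ℕ) + k → G.dist a b ≤ k := by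
      intro k
      induction k with
      | zero =>
        intro a b hab
        have : a = b := φ.injective (Fin.ext (by omega))
        subst this
        simp
      | succ k ih =>
        intro a b hab
        have hlt : (φ a : ℕ) + k < n := by
          have := (φ b).2
          omega
        set c := φ.symm ⟨(φ a : ℕ) + k, hlt⟩ with hc
        have hc1 : (φ c : ℕ) = (φ a : ℕ) + k := by
          rw [hc]
          simp
        have h1 := ih a c hc1
        have h2 : G.Adj c b := by
          rw [hadj]
          left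
          omega
        have h3 : G.dist c b = 1 := SimpleGraph.dist_eq_one_iff_adj.2 h2
        have h4 : G.dist a b ≤ G.dist a c + G.dist c b := hG.dist_triangle
        omega
    rcases le_total (φ a : ℕ) (φ b : ℕ) with h | h
    · have := key ((φ b : ℕ) - (φ a : ℕ)) a b (by omega)
      omega
    · have := key ((φ a : ℕ) - (φ b : ℕ)) b a (by omega)
      rw [SimpleGraph.dist_comm] at this
      omega
  · obtain ⟨p, hp⟩ := hG.exists_walk_length_eq_dist a b
    rw [← hp]
    clear hp
    induction p with
    | nil => simp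
    | @cons x z y h q ih =>
      rw [SimpleGraph.Walk.length_cons]
      rw [hadj] at h
      omega

lemma value_of_iso {G : SimpleGraph V} (hG : G.Connected)
    (φ : G ≃g SimpleGraph.pathGraph (Fintype.card V)) :
    f2 G.dist univ = F2 (Fintype.card V) := by
  have hn : 0 < Fintype.card V := Fintype.card_pos_iff.2 hG.nonempty
  have hmaps : ∀ a ∈ (univ : Finset V), (φ a : ℕ) < Fintype.card V := fun a _ => (φ a).2
  have hinj : ∀ a ∈ (univ : Finset V), ∀ b ∈ (univ : Finset V), (φ a : ℕ) = (φ b : ℕ) → a = b :=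
    fun a _ b _ h => φ.injective (Fin.ext h)
  have hsurj : ∀ i < Fintype.card V, ∃ a ∈ (univ : Finset V), (φ a : ℕ) = i := by
    intro i hi
    exact ⟨φ.symm ⟨i, hi⟩, mem_univ _, by simp⟩
  have hd : ∀ a ∈ (univ : Finset V), ∀ b ∈ (univ : Finset V),
      G.dist a b = ((φ a : ℕ) - (φ b : ℕ)) + ((φ b : ℕ) - (φ a : ℕ)) :=
    fun a _ b _ => dist_of_iso hG φ a b
  unfold f2 F2
  rw [pathlike_W2 (ψ := fun a => (φ a : ℕ)) hmaps hinj hsurj hd,
    pathlike_E1 (ψ := fun a => (φ a : ℕ)) hn hmaps hinj hsurj hd]

/-- **The conjecture is true.** For every connected graph `G` of order `n` and radius at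
least `4`, `W(G) - ε(G) ≤ ⌊n³/6 - 3n²/4 + n/3 + 1/4⌋`, with equality iff `G` is a path. -/
theorem result (G : SimpleGraph V) (hG : G.Connected) (hrad : 4 ≤ radius G)
    (n : ℕ) (hn : n = Fintype.card V) :
    wiener G - totalEcc G ≤
      (⌊(1 / 6 : ℚ) * (n : ℚ) ^ 3 - 3 / 4 * (n : ℚ) ^ 2 + 1 / 3 * n + 1 / 4⌋ : ℤ) ∧
    (wiener G - totalEcc G =
      (⌊(1 / 6 : ℚ) * (n : ℚ) ^ 3 - 3 / 4 * (n : ℚ) ^ 2 + 1 / 3 * n + 1 / 4⌋ : ℤ) ↔
      Nonempty (G ≃g SimpleGraph.pathGraph n)) := by
  classical
  subst hn
  have he : ∀ u, 4 ≤ ec G.dist u := by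
    intro u
    have : radius G ≤ ecc G u := ciInf_le ⟨0, by rintro _ ⟨v, rfl⟩; exact Nat.zero_le _⟩ u
    rw [ecc_eq] at this
    omega
  obtain ⟨h1, h2⟩ := main_ineq G hG he
  rw [floor_eq, value_eq]
  have h1' : (f2 G.dist univ : ℚ) ≤ (F2 (Fintype.card V) : ℚ) := by exact_mod_cast h1
  refine ⟨by linarith, ?_, ?_⟩
  · intro h
    have h3 : (f2 G.dist univ : ℚ) = (F2 (Fintype.card V) : ℚ) := by linarith
    obtain ⟨hT, x, y, hxy⟩ := h2 (by exact_mod_cast h3)
    exact iso_of_univ hT hxy
  · rintro ⟨φ⟩
    rw [value_of_iso hG φ]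

end fin

end Pool.Agent.Results.MP_4bd310_co.PathMaximal
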